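import Pool.Agent.H482R3.EA.Stm

set_option autoImplicit false

/-! Task REP: coset representatives. -/

namespace Pool.Agent.H634R4.EA

open Pool.Agent.H482R3.EA Pool.Agent.H482R3.EA.NF

private lemma REP_mem {S : Sys} {l : S.Ln} {q : S.P} {y : S.L l} {a : ℤ} :
    (∃ b : ℤ, S.x l q ^ a * y = S.x l q ^ b) ↔ ∃ b : ℤ, y = S.x l q ^ b := by
  constructor
  · rintro ⟨b, hb⟩
    refine ⟨-a + b, ?_⟩
    rw [zpow_add, ← hb, ← mul_assoc, ← zpow_add]
    simp
  · rintro ⟨b, hb⟩
    exact ⟨a + b, by rw [hb, zpow_add]⟩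

private lemma REP_cf (S : Sys) (l : S.Ln) (q : S.P) (y : S.L l) :
    y = S.x l q ^ cf S l q y * rep S l q y := (exists_cf S l q y).choose_spec

private lemma REP_rep (S : Sys) (l : S.Ln) (q : S.P) (y : S.L l) (a : ℤ) :
    rep S l q (S.x l q ^ a * y) = rep S l q y := by
  unfold rep
  by_cases h : ∃ b : ℤ, y = S.x l q ^ b
  · rw [if_pos h, if_pos (REP_mem.2 h)]
  · rw [if_neg h, if_neg (fun h' => h (REP_mem.1 h'))]
    congr 1
    apply Quotient.sound
    show ∃ b : ℤ, y = S.x l q ^ b * (S.x l q ^ a * y)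
    exact ⟨-a, by simp⟩

theorem t_REP : S_REP := by
  intro S l q hI y
  refine ⟨REP_cf S l q y, REP_rep S l q y, ?_, ?_, ?_⟩
  · intro a
    have h1 := REP_cf S l q (S.x l q ^ a * y)
    rw [REP_rep] at h1
    have h2 : S.x l q ^ a * y = S.x l q ^ (a + cf S l q y) * rep S l q y := by
      rw [zpow_add, mul_assoc, ← REP_cf]
    rw [h2] at h1
    have h3 := mul_right_cancel h1
    have h4 : S.x l q ^ (a + cf S l q y - cf S l q (S.x l q ^ (a + cf S l q y) * rep S l q y)) = 1 := by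
      rw [zpow_sub, ← h3, mul_inv_cancel]
    have h5 := S.X0 l q _ hI h4
    rw [← h2] at h5
    omega
  · constructor
    · intro h
      exact ⟨cf S l q y, by conv_lhs => rw [REP_cf S l q y, h, mul_one]⟩
    · intro h
      unfold rep
      rw [if_pos h]
  · conv_rhs => rw [REP_cf S l q y, REP_rep]

end Pool.Agent.H634R4.EA
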